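import Pool.Agent.helper69.MB.Closed
import Pool.Agent.helper24.BVD.KerRatio
import Pool.Agent.helper10.BV.Final

/-!
# Schinzel's assertion in multiplicatively closed sets of positive rationals
-/

namespace Pool.Agent.helper69.MB

open Finset

/-- The assertion of Q1 for the single rational `r`. -/
def Full (r : ℚ) : Prop :=
  {x : ℕ × ℕ | x.1.Prime ∧ x.2.Prime ∧ ((x.1 : ℚ) + 1) / ((x.2 : ℚ) + 1) = r}.Infinite ∧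
  {x : ℕ × ℕ | x.1.Prime ∧ x.2.Prime ∧ ((x.1 : ℚ) - 1) / ((x.2 : ℚ) - 1) = r}.Infinite

lemma Full.inv {r : ℚ} (h : Full r) : Full r⁻¹ := by
  obtain ⟨h1, h2⟩ := h
  constructor
  · refine Set.infinite_of_injOn_mapsTo (f := Prod.swap) Prod.swap_injective.injOn ?_ h1
    rintro ⟨p, q⟩ ⟨hp, hq, he⟩
    refine ⟨hq, hp, ?_⟩
    show ((q : ℚ) + 1) / ((p : ℚ) + 1) = r⁻¹
    rw [← he]
    exact (inv_div _ _).symm
  · refine Set.infinite_of_injOn_mapsTo (f := Prod.swap) Prod.swap_injective.injOn ?_ h2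
    rintro ⟨p, q⟩ ⟨hp, hq, he⟩
    refine ⟨hq, hp, ?_⟩
    show ((q : ℚ) - 1) / ((p : ℚ) - 1) = r⁻¹
    rw [← he]
    exact (inv_div _ _).symm

lemma pair_both (ε : ℝ) (hε : 0 < ε) : ∃ K : ℕ, ∀ A : Finset ℚ, (∀ r ∈ A, 0 < r) → K ≤ A.card →
    (1 / 16 - ε) * (A.card : ℝ) ^ 2 ≤ (prs (fun a b => Full (a / b)) A : ℝ) := by
  classical
  obtain ⟨K, hK⟩ := BVD.bothDensity16 BVM.bvInput ε hε
  refine ⟨K, fun A hA hKA => (hK A hA hKA).trans ?_⟩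
  have h : ({p : ℚ × ℚ | p.1 ∈ A ∧ p.2 ∈ A ∧ p.1 ≠ p.2 ∧
      {x : ℕ × ℕ | x.1.Prime ∧ x.2.Prime ∧
        ((x.1 : ℚ) + 1) / ((x.2 : ℚ) + 1) = p.1 / p.2}.Infinite ∧
      {x : ℕ × ℕ | x.1.Prime ∧ x.2.Prime ∧
        ((x.1 : ℚ) - 1) / ((x.2 : ℚ) - 1) = p.1 / p.2}.Infinite} : Set (ℚ × ℚ)) =
      (((A ×ˢ A).filter (fun q => q.1 ≠ q.2 ∧ Full (q.1 / q.2)) : Finset (ℚ × ℚ)) :
        Set (ℚ × ℚ)) := by
    ext p
    rw [Finset.mem_coe, Finset.mem_filter, Finset.mem_product]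
    constructor
    · rintro ⟨h1, h2, h3, h4, h5⟩
      exact ⟨⟨h1, h2⟩, h3, h4, h5⟩
    · rintro ⟨⟨h1, h2⟩, h3, h4, h5⟩
      exact ⟨h1, h2, h3, h4, h5⟩
  rw [h, Set.ncard_coe_finset]
  unfold prs
  exact_mod_cast le_of_eq (by congr)

/-- **Main theorem.** -/
theorem both (S : Set ℚ) (hpos : ∀ s ∈ S, 0 < s) (hmul : ∀ s ∈ S, ∀ t ∈ S, s * t ∈ S)
    (hne : ∃ c ∈ S, c ≠ 1) (ε : ℝ) (hε : 0 < ε) :
    ∃ D : Finset ℚ, D.Nonempty ∧ (D : Set ℚ) ⊆ S ∧ ∀ r ∈ S,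
      (1 / 16 - ε) * (D.card : ℝ) ≤ (({d : ℚ | d ∈ D ∧
        {x : ℕ × ℕ | x.1.Prime ∧ x.2.Prime ∧ ((x.1 : ℚ) + 1) / ((x.2 : ℚ) + 1) = r * d}.Infinite ∧
        {x : ℕ × ℕ | x.1.Prime ∧ x.2.Prime ∧
          ((x.1 : ℚ) - 1) / ((x.2 : ℚ) - 1) = r * d}.Infinite}).ncard : ℝ) := by
  classical
  obtain ⟨D, hD, hDS, h⟩ := closed_density Full (fun r h => h.inv) (1 / 16) (by norm_num)
    pair_both S hpos hmul hne ε hε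
  refine ⟨D, hD, hDS, fun r hr => (h r hr).trans ?_⟩
  have e : ({d : ℚ | d ∈ D ∧
      {x : ℕ × ℕ | x.1.Prime ∧ x.2.Prime ∧ ((x.1 : ℚ) + 1) / ((x.2 : ℚ) + 1) = r * d}.Infinite ∧
      {x : ℕ × ℕ | x.1.Prime ∧ x.2.Prime ∧
        ((x.1 : ℚ) - 1) / ((x.2 : ℚ) - 1) = r * d}.Infinite} : Set ℚ) =
      ((D.filter fun d => Full (r * d) : Finset ℚ) : Set ℚ) := by
    ext d
    rw [Finset.mem_coe, Finset.mem_filter]
    exact Iff.rfl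
  rw [e, Set.ncard_coe_finset]

end Pool.Agent.helper69.MB
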