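import Mathlib

/-!
# From pair density in finite sets to density in multiplicatively closed sets

Let `Q` be a property of positive rationals, invariant under inversion, such that in every large
finite set `A` of positive rationals at least `(δ - ε) |A|²` ordered pairs of distinct elements have a
ratio with the property. Then in every multiplicatively closed set `S ⊄ {1}` of positive rationals
there is, for every `ε > 0`, a finite non-empty set `D` such that for every `r` in `S` at least
`(δ - ε) |D|` of the products `r d`, `d ∈ D`, have the property.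
-/

namespace Pool.Agent.helper69.MB

open Finset

open Classical in
/-- The number of ordered pairs of distinct elements of `B` in the relation `R`. -/
noncomputable def prs {α : Type} (R : α → α → Prop) (B : Finset α) : ℕ :=
  ((B ×ˢ B).filter (fun q => q.1 ≠ q.2 ∧ R q.1 q.2)).card

open Classical in
lemma prs_insert {α : Type} (R : α → α → Prop) (hR : ∀ a b, R a b → R b a) (B : Finset α) (x : α) :
    prs R (insert x B) ≤ prs R B + 2 * (B.filter (fun b => R b x)).card := by
  unfold prs
  have h : ((insert x B ×ˢ insert x B).filter (fun q : α × α => q.1 ≠ q.2 ∧ R q.1 q.2)) ⊆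
      (((B ×ˢ B).filter (fun q : α × α => q.1 ≠ q.2 ∧ R q.1 q.2)) ∪
      ((B.filter (fun b => R b x)).image (fun b => (x, b)))) ∪
      ((B.filter (fun b => R b x)).image (fun b => (b, x))) := by
    rintro ⟨a, b⟩ h
    simp only [Finset.mem_filter, Finset.mem_product, Finset.mem_insert] at h
    obtain ⟨⟨ha, hb⟩, hne, hT⟩ := h
    simp only [Finset.mem_union, Finset.mem_filter, Finset.mem_product, Finset.mem_image,
      Prod.mk.injEq]
    rcases ha with ha | ha
    · rcases hb with hb | hb
      · exact absurd (ha.trans hb.symm) hne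
      · left; right
        subst ha
        exact ⟨b, ⟨hb, hR _ _ hT⟩, rfl, rfl⟩
    · rcases hb with hb | hb
      · right
        subst hb
        exact ⟨a, ⟨ha, hT⟩, rfl, rfl⟩
      · left; left
        exact ⟨⟨ha, hb⟩, hne, hT⟩
  refine (Finset.card_le_card h).trans ?_
  refine (Finset.card_union_le _ _).trans ?_
  have h1 := Finset.card_union_le
    ((B ×ˢ B).filter (fun q : α × α => q.1 ≠ q.2 ∧ R q.1 q.2))
    ((B.filter (fun b => R b x)).image (fun b => (x, b)))
  have h2 : ((B.filter (fun b => R b x)).image (fun b => (x, b))).card ≤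
    (B.filter (fun b => R b x)).card := Finset.card_image_le
  have h3 : ((B.filter (fun b => R b x)).image (fun b => (b, x))).card ≤
    (B.filter (fun b => R b x)).card := Finset.card_image_le
  omega

/-- The minimal number of pairs of a `k`-element subset of `S`. -/
noncomputable def minPrs {α : Type} (R : α → α → Prop) (S : Set α) (k : ℕ) : ℕ :=
  sInf {n | ∃ B : Finset α, (B : Set α) ⊆ S ∧ B.card = k ∧ prs R B = n}

lemma minPrs_le {α : Type} {R : α → α → Prop} {S : Set α} {B : Finset α} (hB : (B : Set α) ⊆ S) :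
    minPrs R S B.card ≤ prs R B :=
  Nat.sInf_le ⟨B, hB, rfl, rfl⟩

lemma minPrs_mem {α : Type} (R : α → α → Prop) {S : Set α} (hS : S.Infinite) (k : ℕ) :
    ∃ B : Finset α, (B : Set α) ⊆ S ∧ B.card = k ∧ prs R B = minPrs R S k := by
  have h : ({n | ∃ B : Finset α, (B : Set α) ⊆ S ∧ B.card = k ∧ prs R B = n} : Set ℕ).Nonempty := by
    obtain ⟨B, hB, hk⟩ := hS.exists_subset_card_eq k
    exact ⟨prs R B, B, hB, hk, rfl⟩
  exact Nat.sInf_mem h

/-- A function with quadratic growth has a large jump. -/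
lemma jump' (e : ℕ → ℝ) (δ η : ℝ) (K : ℕ) (he : ∀ k, 0 ≤ e k)
    (hT : ∀ k, K ≤ k → δ * (k : ℝ) ^ 2 ≤ e k) (hη : 0 < η) (hd : 0 ≤ δ - η) :
    ∃ k, 1 ≤ k ∧ 2 * (δ - η) * k ≤ e (k + 1) - e k := by
  by_contra hcon
  push Not at hcon
  set K' := max K 1 with hK'
  have h1 : ∀ k, K' ≤ k → e k ≤ e K' + (δ - η) * (k : ℝ) ^ 2 := by
    intro k hk
    induction k, hk using Nat.le_induction with
    | base => nlinarith [sq_nonneg (K' : ℝ)]
    | succ k hk ih =>
      have h2 := hcon k (le_trans (le_max_right _ _) hk)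
      push_cast
      nlinarith
  obtain ⟨N, hN⟩ := exists_nat_gt (e K' / η)
  set k := max N K' with hk
  have hkN : (N : ℝ) ≤ k := by exact_mod_cast le_max_left _ _
  have hk1 : (1 : ℝ) ≤ k := by
    exact_mod_cast (le_trans (le_max_right K 1) (le_max_right N K'))
  have h2 := h1 k (le_max_right _ _)
  have h3 := hT k (le_trans (le_max_left K 1) (le_max_right N K'))
  have h4 : η * (k : ℝ) ^ 2 ≤ e K' := by linarith
  rw [div_lt_iff₀ hη] at hN
  have h5 : (k : ℝ) ≤ (k : ℝ) ^ 2 := by nlinarith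
  have h6 : η * (k : ℝ) ≤ η * (k : ℝ) ^ 2 := mul_le_mul_of_nonneg_left h5 hη.le
  have h7 : η * (N : ℝ) ≤ η * (k : ℝ) := mul_le_mul_of_nonneg_left hkN hη.le
  have := he K'
  linarith

open Classical in
/-- The extremal set. -/
lemma extremal {α : Type} (R : α → α → Prop) (hR : ∀ a b, R a b → R b a) (δ η : ℝ) (K : ℕ)
    {S : Set α} (hS : S.Infinite)
    (hT : ∀ A : Finset α, (A : Set α) ⊆ S → K ≤ A.card → δ * (A.card : ℝ) ^ 2 ≤ prs R A)
    (hη : 0 < η) (hd : 0 ≤ δ - η) :
    ∃ B : Finset α, B.Nonempty ∧ (B : Set α) ⊆ S ∧ ∀ x ∈ S, x ∉ B →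
      (δ - η) * (B.card : ℝ) ≤ ((B.filter (fun b => R b x)).card : ℝ) := by
  have hT' : ∀ k, K ≤ k → δ * (k : ℝ) ^ 2 ≤ (minPrs R S k : ℝ) := by
    intro k hk
    obtain ⟨B, hBS, hB, hE⟩ := minPrs_mem R hS k
    have h1 := hT B hBS (by rw [hB]; exact hk)
    rw [hB] at h1
    rw [← hE]
    exact h1
  obtain ⟨k, hk1, hk⟩ := jump' (fun k => (minPrs R S k : ℝ)) δ η K
    (fun k => Nat.cast_nonneg _) hT' hη hd
  obtain ⟨B, hBS, hB, hE⟩ := minPrs_mem R hS k
  refine ⟨B, by rw [← Finset.card_pos]; omega, hBS, fun x hx hxB => ?_⟩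
  have h1 := prs_insert R hR B x
  have h3 : minPrs R S (insert x B).card ≤ prs R (insert x B) := by
    apply minPrs_le
    rw [Finset.coe_insert]
    exact Set.insert_subset hx hBS
  rw [Finset.card_insert_of_notMem hxB, hB] at h3
  have h4 : (minPrs R S (k + 1) : ℝ) ≤ minPrs R S k +
      2 * ((B.filter (fun b => R b x)).card : ℝ) := by
    rw [← hE]
    exact_mod_cast h3.trans h1
  rw [hB]
  linarith

lemma mul_prod_mem' {S : Set ℚ} (hmul : ∀ s ∈ S, ∀ t ∈ S, s * t ∈ S) {c : ℚ} (hc : c ∈ S)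
    (B : Finset ℚ) (hB : (B : Set ℚ) ⊆ S) : c * ∏ b ∈ B, b ∈ S := by
  induction B using Finset.induction_on with
  | empty => simpa using hc
  | insert a B ha ih =>
    rw [Finset.prod_insert ha]
    have h1 : c * ∏ b ∈ B, b ∈ S := ih fun b hb => hB (by
      rw [Finset.coe_insert]
      exact Set.mem_insert_of_mem _ hb)
    have h2 : a ∈ S := hB (by
      rw [Finset.coe_insert]
      exact Set.mem_insert _ _)
    have h3 := hmul a h2 _ h1
    rwa [mul_left_comm] at h3

lemma infinite_of_closed' {S : Set ℚ} (hpos : ∀ s ∈ S, 0 < s)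
    (hmul : ∀ s ∈ S, ∀ t ∈ S, s * t ∈ S) {c : ℚ} (hc : c ∈ S) (hc1 : c ≠ 1) : S.Infinite := by
  have h1 : ∀ n : ℕ, c ^ (n + 1) ∈ S := by
    intro n
    induction n with
    | zero => simpa using hc
    | succ n ih =>
      rw [pow_succ]
      exact hmul _ ih _ hc
  refine Set.infinite_of_injective_forall_mem (f := fun n : ℕ => c ^ (n + 1)) ?_ h1
  intro n m h
  have := pow_right_injective₀ (hpos c hc) hc1 h
  omega

/-- Sparse elements of `S`. -/
lemma exists_sparse {S : Set ℚ} (hS : S.Infinite) (B : Finset ℚ) (hB : ∀ b ∈ B, 0 < b) (n : ℕ) :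
    ∃ C : Finset ℚ, C.card = n ∧ (C : Set ℚ) ⊆ S ∧
      ∀ c ∈ C, ∀ c' ∈ C, c ≠ c' → ∀ b ∈ B, ∀ b' ∈ B, c * b' ≠ c' * b := by
  classical
  induction n with
  | zero => exact ⟨∅, rfl, by simp, by simp⟩
  | succ n ih =>
    obtain ⟨C, hC, hCS, hsp⟩ := ih
    -- the excluded values
    set X : Finset ℚ := C ∪ ((C ×ˢ (B ×ˢ B)).image fun q => q.1 * q.2.1 / q.2.2) with hX
    obtain ⟨x, hxS, hxX⟩ := hS.exists_notMem_finset X
    simp only [hX, Finset.mem_union, Finset.mem_image, Finset.mem_product, not_or] at hxX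
    obtain ⟨hxC, h1⟩ := hxX
    refine ⟨insert x C, by rw [Finset.card_insert_of_notMem hxC, hC], ?_, ?_⟩
    · rw [Finset.coe_insert]
      exact Set.insert_subset hxS hCS
    · intro c hc c' hc' hne b hb b' hb' h
      have hb0 := hB b hb
      have hb0' := hB b' hb'
      rw [Finset.mem_insert] at hc hc'
      rcases hc with rfl | hc
      · rcases hc' with rfl | hc'
        · exact hne rfl
        · refine h1 ⟨(c', (b, b')), ⟨hc', hb, hb'⟩, ?_⟩
          show c' * b / b' = c
          rw [← h]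
          field_simp
      · rcases hc' with rfl | hc'
        · refine h1 ⟨(c, (b', b)), ⟨hc, hb', hb⟩, ?_⟩
          show c * b' / b = c'
          rw [h]
          field_simp
        · exact hsp c hc c' hc' hne b hb b' hb' h

open Classical in
/-- **From finite sets to multiplicatively closed sets.** -/
theorem closed_density (Q : ℚ → Prop) (hQ : ∀ r, Q r → Q r⁻¹) (δ : ℝ) (hδ1 : δ ≤ 1)
    (hpair : ∀ ε : ℝ, 0 < ε → ∃ K : ℕ, ∀ A : Finset ℚ, (∀ r ∈ A, 0 < r) → K ≤ A.card →
      (δ - ε) * (A.card : ℝ) ^ 2 ≤ (prs (fun a b => Q (a / b)) A : ℝ))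
    (S : Set ℚ) (hpos : ∀ s ∈ S, 0 < s) (hmul : ∀ s ∈ S, ∀ t ∈ S, s * t ∈ S)
    (hne : ∃ c ∈ S, c ≠ 1) (ε : ℝ) (hε : 0 < ε) :
    ∃ D : Finset ℚ, D.Nonempty ∧ (D : Set ℚ) ⊆ S ∧ ∀ r ∈ S,
      (δ - ε) * (D.card : ℝ) ≤ ((D.filter fun d => Q (r * d)).card : ℝ) := by
  obtain ⟨c₀, hc₀, hc₀1⟩ := hne
  have hinf := infinite_of_closed' hpos hmul hc₀ hc₀1
  by_cases hd : 0 ≤ (δ - ε / 4) - ε / 4
  · obtain ⟨K, hK⟩ := hpair (ε / 4) (by linarith)
    obtain ⟨B, hBne, hBS, hdeg⟩ := extremal (fun a b => Q (a / b)) (fun a b h => by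
        have := hQ _ h
        rwa [inv_div] at this) (δ - ε / 4) (ε / 4) K hinf
      (fun A hA hKA => hK A (fun r hr => hpos r (hA hr)) hKA) (by linarith) hd
    have hBpos : ∀ b ∈ B, 0 < b := fun b hb => hpos b (hBS hb)
    obtain ⟨n, hn⟩ := exists_nat_gt (2 / ε)
    have hn0 : 0 < n := by
      have h1 : (0 : ℝ) < n := lt_trans (by positivity) hn
      exact_mod_cast h1
    obtain ⟨C, hCn, hCS, hsp⟩ := exists_sparse hinf B hBpos n
    have hCpos : ∀ c ∈ C, 0 < c := fun c hc => hpos c (hCS hc)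
    set P := ∏ b ∈ B, b with hP
    have hP0 : 0 < P := Finset.prod_pos hBpos
    have hCP : ∀ c ∈ C, c * P ∈ S := fun c hc => mul_prod_mem' hmul (hCS hc) B hBS
    set f : ℚ × ℚ → ℚ := fun q => q.1 * P / q.2 with hf
    have hinj : Set.InjOn f ((C ×ˢ B : Finset (ℚ × ℚ)) : Set (ℚ × ℚ)) := by
      rintro ⟨c, b⟩ hq ⟨c', b'⟩ hq' h
      rw [Finset.mem_coe, Finset.mem_product] at hq hq'
      have hb := hBpos b hq.2
      have hb' := hBpos b' hq'.2
      have h1 : c * P / b = c' * P / b' := h
      rw [div_eq_div_iff hb.ne' hb'.ne'] at h1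
      have h2 : c * b' = c' * b := by
        have : P * (c * b') = P * (c' * b) := by linarith
        exact mul_left_cancel₀ hP0.ne' this
      by_cases hcc : c = c'
      · subst hcc
        have : b' = b := mul_left_cancel₀ (hCpos c hq.1).ne' h2
        rw [this]
      · exact absurd h2 (hsp c hq.1 c' hq'.1 hcc b hq.2 b' hq'.2)
    have hmemS : ∀ q ∈ C ×ˢ B, f q ∈ S := by
      rintro ⟨c, b⟩ hq
      rw [Finset.mem_product] at hq
      have hb := hBpos b hq.2
      have h1 : f (c, b) = c * ∏ b' ∈ B.erase b, b' := by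
        show c * P / b = _
        rw [hP, ← Finset.mul_prod_erase B (fun b => b) hq.2]
        field_simp
      rw [h1]
      exact mul_prod_mem' hmul (hCS hq.1) _ (fun b' hb' =>
        hBS (Finset.mem_of_mem_erase (Finset.mem_coe.1 hb')))
    have hCne : C.Nonempty := by rw [← Finset.card_pos]; omega
    refine ⟨(C ×ˢ B).image f, (hCne.product hBne).image f, ?_, fun r hr => ?_⟩
    · intro d hd'
      rw [Finset.coe_image] at hd'
      obtain ⟨q, hq, rfl⟩ := hd'
      exact hmemS q (Finset.mem_coe.1 hq)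
    · have hr0 := hpos r hr
      have hcard : ((C ×ˢ B).image f).card = n * B.card := by
        rw [Finset.card_image_of_injOn hinj, Finset.card_product, hCn]
      -- the good indices `c`
      set C' := C.filter (fun c => r * (c * P) ∉ B) with hC'
      have hC'card : n - 1 ≤ C'.card := by
        have h1 : (C.filter (fun c => ¬ (r * (c * P) ∉ B))).card ≤ 1 := by
          rw [Finset.card_le_one]
          intro c hc c' hc'
          rw [Finset.mem_filter, not_not] at hc hc'
          by_contra hcc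
          refine hsp c hc.1 c' hc'.1 hcc _ hc.2 _ hc'.2 ?_
          ring
        have h2 : C'.card + (C.filter (fun c => ¬ (r * (c * P) ∉ B))).card = n := by
          rw [hC', Finset.card_filter_add_card_filter_not, hCn]
        omega
      -- count
      have hcount : (∑ c ∈ C', (B.filter (fun b => Q (b / (r * (c * P))))).card) ≤
          (((C ×ˢ B).image f).filter fun d => Q (r * d)).card := by
        rw [← Finset.card_sigma]
        apply Finset.card_le_card_of_injOn (fun q => f (q.1, q.2))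
        · rintro ⟨c, b⟩ hq
          rw [Finset.mem_coe, Finset.mem_sigma] at hq
          obtain ⟨hc, hb⟩ := hq
          rw [Finset.mem_filter] at hc hb
          simp only at hc hb
          apply Finset.mem_coe.2
          rw [Finset.mem_filter]
          refine ⟨Finset.mem_image_of_mem f (Finset.mem_product.2 ⟨hc.1, hb.1⟩), ?_⟩
          have h1 := hQ _ hb.2
          rw [inv_div] at h1
          have h2 : r * f (c, b) = r * (c * P) / b := by
            show r * (c * P / b) = _
            ring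
          rw [h2]
          exact h1
        · rintro ⟨c, b⟩ hq ⟨c', b'⟩ hq' h
          rw [Finset.mem_coe, Finset.mem_sigma] at hq hq'
          obtain ⟨hc, hb⟩ := hq
          obtain ⟨hc', hb'⟩ := hq'
          rw [Finset.mem_filter] at hc hb hc' hb'
          have h1 : ((c, b) : ℚ × ℚ) = (c', b') :=
            hinj (Finset.mem_coe.2 (Finset.mem_product.2 ⟨hc.1, hb.1⟩))
              (Finset.mem_coe.2 (Finset.mem_product.2 ⟨hc'.1, hb'.1⟩)) h
          have h2 := Prod.mk.inj h1
          obtain ⟨h3, h4⟩ := h2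
          subst h3
          subst h4
          rfl
      have hsum : (C'.card : ℝ) * ((δ - ε / 4 - ε / 4) * (B.card : ℝ)) ≤
          ((∑ c ∈ C', (B.filter (fun b => Q (b / (r * (c * P))))).card : ℕ) : ℝ) := by
        push_cast
        rw [← nsmul_eq_mul, ← Finset.sum_const]
        apply Finset.sum_le_sum
        intro c hc
        rw [Finset.mem_filter] at hc
        exact hdeg _ (hmul r hr _ (hCP c hc.1)) hc.2
      have hC'R : (n : ℝ) - 1 ≤ C'.card := by
        have h1 : n ≤ C'.card + 1 := by omega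
        have h2 : (n : ℝ) ≤ (C'.card : ℝ) + 1 := by exact_mod_cast h1
        linarith
      have hBR : (0 : ℝ) ≤ B.card := Nat.cast_nonneg _
      have hnR : 2 < n * ε := by
        rwa [div_lt_iff₀ hε] at hn
      rw [hcard]
      push_cast
      calc (δ - ε) * ((n : ℝ) * B.card) ≤ ((n : ℝ) - 1) * ((δ - ε / 4 - ε / 4) * (B.card : ℝ)) := by
            have h1 : (δ - ε) * (n : ℝ) ≤ ((n : ℝ) - 1) * (δ - ε / 4 - ε / 4) := by nlinarith
            calc (δ - ε) * ((n : ℝ) * B.card) = ((δ - ε) * (n : ℝ)) * B.card := by ring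
              _ ≤ (((n : ℝ) - 1) * (δ - ε / 4 - ε / 4)) * B.card := by gcongr
              _ = _ := by ring
        _ ≤ (C'.card : ℝ) * ((δ - ε / 4 - ε / 4) * (B.card : ℝ)) := by
            have : 0 ≤ (δ - ε / 4 - ε / 4) * (B.card : ℝ) := by positivity
            gcongr
        _ ≤ ((∑ c ∈ C', (B.filter (fun b => Q (b / (r * (c * P))))).card : ℕ) : ℝ) := hsum
        _ ≤ _ := by exact_mod_cast hcount
  · refine ⟨{c₀}, Finset.singleton_nonempty _, ?_, fun s hs => ?_⟩
    · rw [Finset.coe_singleton]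
      exact Set.singleton_subset_iff.2 hc₀
    · have h1 : (δ - ε) * ((({c₀} : Finset ℚ).card : ℕ) : ℝ) ≤ 0 :=
        mul_nonpos_of_nonpos_of_nonneg (by linarith) (Nat.cast_nonneg _)
      exact h1.trans (Nat.cast_nonneg _)

end Pool.Agent.helper69.MB
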