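import Pool.Agent.helper31.BVM.Defs

/-!
# Multipliers in a multiplicatively closed set

From the pair density theorem for linear forms: in every set `S` of positive integers closed under
multiplication there is a finite set `D` such that for every `s` in `S` at least
`(1/4 - ε) |D|` of the numbers `s d`, `d ∈ D`, are good multipliers.
-/

noncomputable section

namespace Pool.Agent.helper69.MB

open Finset Filter BVM

/-- `p` and `m (p - 1) + 1` are both prime for infinitely many `p`. -/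
def Good (m : ℕ) : Prop := {p : ℕ | p.Prime ∧ (m * (p - 1) + 1).Prime}.Infinite

/-- Both `b n + 1` and `b' n + 1` are prime for infinitely many `n`. -/
def GP (b b' : ℕ) : Prop := {n : ℕ | PrimeAt b 1 n ∧ PrimeAt b' 1 n}.Infinite

lemma GP.symm {b b' : ℕ} (h : GP b b') : GP b' b := h.mono fun _ hn => ⟨hn.2, hn.1⟩

lemma good_of_GP {b m x : ℕ} (hb : 0 < b) (hx : x = b * m) (h : GP b x) : Good m := by
  have hval : ∀ c n : ℕ, ((c : ℤ) * (n : ℤ) + 1).toNat = c * n + 1 := by
    intro c n
    have e : (c : ℤ) * (n : ℤ) + 1 = ((c * n + 1 : ℕ) : ℤ) := by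
      push_cast
      ring
    rw [e, Int.toNat_natCast]
  refine Set.infinite_of_injOn_mapsTo (f := fun n : ℕ => b * n + 1) ?_ ?_ h
  · intro n _ m _ hnm
    have h1 : b * n + 1 = b * m + 1 := hnm
    have h2 : b * n = b * m := by omega
    exact Nat.eq_of_mul_eq_mul_left hb h2
  · intro n hn
    obtain ⟨h1, h2⟩ := hn
    unfold PrimeAt at h1 h2
    rw [hval] at h1 h2
    refine ⟨h1, ?_⟩
    show (m * (b * n + 1 - 1) + 1).Prime
    have e : m * (b * n + 1 - 1) + 1 = x * n + 1 := by
      rw [Nat.add_sub_cancel, hx]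
      ring
    rw [e]
    exact h2

/-- The pair density theorem, as a hypothesis. -/
def PairDensity : Prop :=
  ∀ ε : ℝ, 0 < ε → ∃ K : ℕ, ∀ B : Finset ℕ, (∀ b ∈ B, 0 < b) → K ≤ B.card →
    ∀ E : Finset (ℕ × ℕ), (∀ q, q ∈ E ↔ (q.1 ∈ B ∧ q.2 ∈ B) ∧ q.1 ≠ q.2 ∧ GP q.1 q.2) →
      (1 / 4 - ε) * (B.card : ℝ) ^ 2 ≤ (E.card : ℝ)

open Classical in
/-- The number of ordered good pairs of `B`. -/
def EE (B : Finset ℕ) : ℕ :=
  ((B ×ˢ B).filter (fun q => q.1 ≠ q.2 ∧ GP q.1 q.2)).card

open Classical in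
lemma EE_insert (B : Finset ℕ) (x : ℕ) :
    EE (insert x B) ≤ EE B + 2 * (B.filter (fun b => GP b x)).card := by
  unfold EE
  have h : ((insert x B ×ˢ insert x B).filter (fun q : ℕ × ℕ => q.1 ≠ q.2 ∧ GP q.1 q.2)) ⊆
      (((B ×ˢ B).filter (fun q : ℕ × ℕ => q.1 ≠ q.2 ∧ GP q.1 q.2)) ∪
      ((B.filter (fun b => GP b x)).image (fun b => (x, b)))) ∪
      ((B.filter (fun b => GP b x)).image (fun b => (b, x))) := by
    rintro ⟨a, b⟩ h
    simp only [Finset.mem_filter, Finset.mem_product, Finset.mem_insert] at h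
    obtain ⟨⟨ha, hb⟩, hne, hT⟩ := h
    simp only [Finset.mem_union, Finset.mem_filter, Finset.mem_product, Finset.mem_image,
      Prod.mk.injEq]
    rcases ha with ha | ha
    · rcases hb with hb | hb
      · exact absurd (ha.trans hb.symm) hne
      · left; right
        subst ha
        exact ⟨b, ⟨hb, hT.symm⟩, rfl, rfl⟩
    · rcases hb with hb | hb
      · right
        subst hb
        exact ⟨a, ⟨ha, hT⟩, rfl, rfl⟩
      · left; left
        exact ⟨⟨ha, hb⟩, hne, hT⟩
  refine (Finset.card_le_card h).trans ?_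
  refine (Finset.card_union_le _ _).trans ?_
  have h1 := Finset.card_union_le
    ((B ×ˢ B).filter (fun q : ℕ × ℕ => q.1 ≠ q.2 ∧ GP q.1 q.2))
    ((B.filter (fun b => GP b x)).image (fun b => (x, b)))
  have h2 : ((B.filter (fun b => GP b x)).image (fun b => (x, b))).card ≤
    (B.filter (fun b => GP b x)).card := Finset.card_image_le
  have h3 : ((B.filter (fun b => GP b x)).image (fun b => (b, x))).card ≤
    (B.filter (fun b => GP b x)).card := Finset.card_image_le
  omega

/-- The minimal number of good pairs of a `k`-element subset of `S`. -/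
def ee (S : Set ℕ) (k : ℕ) : ℕ :=
  sInf {n | ∃ B : Finset ℕ, (B : Set ℕ) ⊆ S ∧ B.card = k ∧ EE B = n}

lemma ee_le {S : Set ℕ} {B : Finset ℕ} (hB : (B : Set ℕ) ⊆ S) : ee S B.card ≤ EE B :=
  Nat.sInf_le ⟨B, hB, rfl, rfl⟩

lemma ee_mem {S : Set ℕ} (hS : S.Infinite) (k : ℕ) :
    ∃ B : Finset ℕ, (B : Set ℕ) ⊆ S ∧ B.card = k ∧ EE B = ee S k := by
  have h : ({n | ∃ B : Finset ℕ, (B : Set ℕ) ⊆ S ∧ B.card = k ∧ EE B = n} : Set ℕ).Nonempty := by
    obtain ⟨B, hB, hk⟩ := hS.exists_subset_card_eq k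
    exact ⟨EE B, B, hB, hk, rfl⟩
  exact Nat.sInf_mem h

/-- A function with quadratic growth has a large jump. -/
lemma jump (e : ℕ → ℝ) (δ η : ℝ) (K : ℕ) (he : ∀ k, 0 ≤ e k)
    (hT : ∀ k, K ≤ k → δ * (k : ℝ) ^ 2 ≤ e k) (hη : 0 < η) (hd : 0 ≤ δ - η) :
    ∃ k, 1 ≤ k ∧ 2 * (δ - η) * k ≤ e (k + 1) - e k := by
  by_contra hcon
  push Not at hcon
  set K' := max K 1 with hK'
  have h1 : ∀ k, K' ≤ k → e k ≤ e K' + (δ - η) * (k : ℝ) ^ 2 := by
    intro k hk
    induction k, hk using Nat.le_induction with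
    | base => nlinarith [sq_nonneg (K' : ℝ)]
    | succ k hk ih =>
      have h2 := hcon k (le_trans (le_max_right _ _) hk)
      push_cast
      nlinarith
  obtain ⟨N, hN⟩ := exists_nat_gt (e K' / η)
  set k := max N K' with hk
  have hkN : (N : ℝ) ≤ k := by exact_mod_cast le_max_left _ _
  have hk1 : (1 : ℝ) ≤ k := by
    exact_mod_cast (le_trans (le_max_right K 1) (le_max_right N K'))
  have h2 := h1 k (le_max_right _ _)
  have h3 := hT k (le_trans (le_max_left K 1) (le_max_right N K'))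
  have h4 : η * (k : ℝ) ^ 2 ≤ e K' := by linarith
  rw [div_lt_iff₀ hη] at hN
  have h5 : (k : ℝ) ≤ (k : ℝ) ^ 2 := by nlinarith
  have h6 : η * (k : ℝ) ≤ η * (k : ℝ) ^ 2 := mul_le_mul_of_nonneg_left h5 hη.le
  have h7 : η * (N : ℝ) ≤ η * (k : ℝ) := mul_le_mul_of_nonneg_left hkN hη.le
  have := he K'
  linarith

lemma mul_prod_mem {S : Set ℕ} (hmul : ∀ s ∈ S, ∀ t ∈ S, s * t ∈ S) {c : ℕ} (hc : c ∈ S)
    (B : Finset ℕ) (hB : (B : Set ℕ) ⊆ S) : c * ∏ b ∈ B, b ∈ S := by
  induction B using Finset.induction_on with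
  | empty => simpa using hc
  | insert a B ha ih =>
    rw [Finset.prod_insert ha]
    have h1 : c * ∏ b ∈ B, b ∈ S := ih fun b hb => hB (by
      rw [Finset.coe_insert]
      exact Set.mem_insert_of_mem _ hb)
    have h2 : a ∈ S := hB (by
      rw [Finset.coe_insert]
      exact Set.mem_insert _ _)
    have h3 := hmul a h2 _ h1
    rwa [mul_left_comm] at h3

lemma infinite_of_closed {S : Set ℕ} (hmul : ∀ s ∈ S, ∀ t ∈ S, s * t ∈ S) {c : ℕ} (hc : c ∈ S)
    (hc2 : 2 ≤ c) : S.Infinite := by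
  have h1 : ∀ n : ℕ, c ^ (n + 1) ∈ S := by
    intro n
    induction n with
    | zero => simpa using hc
    | succ n ih =>
      rw [pow_succ]
      exact hmul _ ih _ hc
  refine Set.infinite_of_injective_forall_mem (f := fun n : ℕ => c ^ (n + 1)) ?_ h1
  intro n m h
  have := Nat.pow_right_injective hc2 h
  omega

open Classical in
/-- **The combinatorial theorem.** -/
theorem quarter (hpair : PairDensity) (S : Set ℕ) (hpos : ∀ s ∈ S, 0 < s)
    (hmul : ∀ s ∈ S, ∀ t ∈ S, s * t ∈ S) (h2 : ∃ c ∈ S, 2 ≤ c) (ε : ℝ) (hε : 0 < ε) :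
    ∃ D : Finset ℕ, D.Nonempty ∧ (D : Set ℕ) ⊆ S ∧ ∀ s ∈ S,
      (1 / 4 - ε) * (D.card : ℝ) ≤ ((D.filter fun d => Good (s * d)).card : ℝ) := by
  obtain ⟨c, hc, hc2⟩ := h2
  have hinf := infinite_of_closed hmul hc hc2
  by_cases hd : 0 ≤ (1 / 4 - ε / 2) - ε / 2
  · obtain ⟨K, hK⟩ := hpair (ε / 2) (by linarith)
    have hT : ∀ k, K ≤ k → (1 / 4 - ε / 2) * (k : ℝ) ^ 2 ≤ (ee S k : ℝ) := by
      intro k hk
      obtain ⟨B, hBS, hB, hE⟩ := ee_mem hinf k
      have h1 := hK B (fun b hb => hpos b (hBS hb)) (by rw [hB]; exact hk)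
        ((B ×ˢ B).filter (fun q => q.1 ≠ q.2 ∧ GP q.1 q.2)) (by
          intro q
          rw [Finset.mem_filter, Finset.mem_product])
      rw [hB] at h1
      rw [← hE]
      exact h1
    obtain ⟨k, hk1, hk⟩ := jump (fun k => (ee S k : ℝ)) (1 / 4 - ε / 2) (ε / 2) K
      (fun k => Nat.cast_nonneg _) hT (by linarith) hd
    obtain ⟨B, hBS, hB, hE⟩ := ee_mem hinf k
    have hBpos : ∀ b ∈ B, 0 < b := fun b hb => hpos b (hBS hb)
    set M := c * ∏ b ∈ B, b with hM
    have hMS : M ∈ S := mul_prod_mem hmul hc B hBS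
    have hM0 : 0 < M := hpos M hMS
    have hdvd : ∀ b ∈ B, b ∣ M := fun b hb => dvd_mul_of_dvd_right (Finset.dvd_prod_of_mem _ hb) _
    have hlt : ∀ b ∈ B, b < M := by
      intro b hb
      have h1 : b ≤ ∏ b ∈ B, b :=
        Nat.le_of_dvd (Finset.prod_pos hBpos) (Finset.dvd_prod_of_mem _ hb)
      have h3 : 0 < b := hBpos b hb
      nlinarith
    have hdivS : ∀ b ∈ B, M / b ∈ S := by
      intro b hb
      have h1 : M = b * (c * ∏ b' ∈ B.erase b, b') := by
        rw [hM, ← Finset.mul_prod_erase B (fun b => b) hb]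
        ring
      rw [h1, Nat.mul_div_cancel_left _ (hBpos b hb)]
      exact mul_prod_mem hmul hc _ (fun b' hb' =>
        hBS (Finset.mem_of_mem_erase (Finset.mem_coe.1 hb')))
    have hinj : Set.InjOn (fun b => M / b) (B : Set ℕ) := by
      intro b hb b' hb' h
      have h1 : M / b = M / b' := h
      have e1 : b * (M / b) = M := Nat.mul_div_cancel' (hdvd b hb)
      have e2 : b' * (M / b') = M := Nat.mul_div_cancel' (hdvd b' hb')
      rw [← h1] at e2
      have h3 : 0 < M / b := Nat.div_pos (hlt b hb).le (hBpos b hb)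
      exact Nat.eq_of_mul_eq_mul_right h3 (e1.trans e2.symm)
    have hBne : B.Nonempty := by
      rw [← Finset.card_pos]
      omega
    refine ⟨B.image (fun b => M / b), hBne.image _, ?_, ?_⟩
    · intro d hd'
      rw [Finset.coe_image] at hd'
      obtain ⟨b, hb, rfl⟩ := hd'
      exact hdivS b hb
    · intro s hs
      have hs0 := hpos s hs
      have hxS : s * M ∈ S := hmul s hs M hMS
      have hxB : s * M ∉ B := by
        intro h
        have h1 := hlt _ h
        have h3 : M ≤ s * M := Nat.le_mul_of_pos_left _ hs0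
        omega
      have h1 := EE_insert B (s * M)
      have h3 : ee S (insert (s * M) B).card ≤ EE (insert (s * M) B) := by
        apply ee_le
        rw [Finset.coe_insert]
        exact Set.insert_subset hxS hBS
      rw [Finset.card_insert_of_notMem hxB, hB] at h3
      have h4 : (ee S (k + 1) : ℝ) ≤ ee S k + 2 * ((B.filter (fun b => GP b (s * M))).card : ℝ) := by
        rw [← hE]
        exact_mod_cast h3.trans h1
      have h5 : ((B.filter (fun b => GP b (s * M))).card : ℝ) ≤
          (((B.image (fun b => M / b)).filter fun d => Good (s * d)).card : ℝ) := by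
        have h6 : (B.filter (fun b => GP b (s * M))).card ≤
            ((B.image (fun b => M / b)).filter fun d => Good (s * d)).card := by
          apply Finset.card_le_card_of_injOn (fun b => M / b)
          · intro b hb
            have hb' := Finset.mem_filter.1 (Finset.mem_coe.1 hb)
            apply Finset.mem_coe.2
            rw [Finset.mem_filter]
            refine ⟨Finset.mem_image_of_mem _ hb'.1, ?_⟩
            refine good_of_GP (hBpos b hb'.1) ?_ hb'.2
            have e1 : b * (M / b) = M := Nat.mul_div_cancel' (hdvd b hb'.1)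
            calc s * M = s * (b * (M / b)) := by rw [e1]
              _ = b * (s * (M / b)) := by ring
          · exact hinj.mono (by
              intro b hb
              exact Finset.mem_coe.2 (Finset.mem_filter.1 (Finset.mem_coe.1 hb)).1)
        exact_mod_cast h6
      rw [Finset.card_image_of_injOn hinj, hB]
      linarith
  · refine ⟨{c}, Finset.singleton_nonempty _, ?_, fun s hs => ?_⟩
    · rw [Finset.coe_singleton]
      exact Set.singleton_subset_iff.2 hc
    · have h1 : (1 / 4 - ε) * ((({c} : Finset ℕ).card : ℕ) : ℝ) ≤ 0 :=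
        mul_nonpos_of_nonpos_of_nonneg (by linarith) (Nat.cast_nonneg _)
      exact h1.trans (Nat.cast_nonneg _)

end Pool.Agent.helper69.MB

end
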