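import Pool.Agent.helper69.MB.Core
import Pool.Agent.helper31.BVM.C01
import Pool.Agent.helper10.BV.Final

/-!
# Multipliers in a multiplicatively closed set: conclusion
-/

noncomputable section

namespace Pool.Agent.helper69.MB

open Finset Filter BVM

lemma adm_forms (B : Finset ℕ) (hB : ∀ b ∈ B, 0 < b) :
    Adm (fun i : ↥B => (i : ℕ)) (fun _ => (1 : ℤ)) := by
  refine ⟨fun i => hB i i.2, ?_, ?_⟩
  · intro i j hij h
    apply hij
    have h1 : ((i : ℕ) : ℤ) = ((j : ℕ) : ℤ) := by simpa using h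
    exact Subtype.ext (by exact_mod_cast h1)
  · intro p hp
    refine ⟨0, fun i h => ?_⟩
    have h1 : (p : ℤ) ∣ 1 := by simpa using h
    have h2 : p ∣ 1 := by exact_mod_cast h1
    exact hp.one_lt.ne' (Nat.dvd_one.1 h2)

theorem pairDensity : PairDensity := by
  classical
  intro ε hε
  obtain ⟨K, hK⟩ := pair_density bvInput ε hε
  refine ⟨K, fun B hB hBK E hE => ?_⟩
  have h1 := hK ↥B (fun i : ↥B => (i : ℕ)) (fun _ => (1 : ℤ)) (adm_forms B hB)
    (by rw [Fintype.card_coe]; exact hBK)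
  rw [Fintype.card_coe] at h1
  refine h1.trans ?_
  have h2 : (univ.filter (fun q : ↥B × ↥B => q.1 ≠ q.2 ∧
      GoodPair (fun i : ↥B => (i : ℕ)) (fun _ => (1 : ℤ)) q.1 q.2)).card ≤ E.card := by
    apply Finset.card_le_card_of_injOn (fun q : ↥B × ↥B => ((q.1 : ℕ), (q.2 : ℕ)))
    · intro q hq
      have hq' := (Finset.mem_filter.1 (Finset.mem_coe.1 hq)).2
      apply Finset.mem_coe.2
      rw [hE]
      exact ⟨⟨q.1.2, q.2.2⟩, fun h => hq'.1 (Subtype.ext h), hq'.2⟩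
    · intro q _ r _ hqr
      have h := Prod.mk.inj hqr
      exact Prod.ext (Subtype.ext h.1) (Subtype.ext h.2)
  exact_mod_cast h2

open Classical in
/-- **Main theorem.** -/
theorem main (S : Set ℕ) (hpos : ∀ s ∈ S, 0 < s) (hmul : ∀ s ∈ S, ∀ t ∈ S, s * t ∈ S)
    (h2 : ∃ c ∈ S, 2 ≤ c) (ε : ℝ) (hε : 0 < ε) :
    ∃ D : Finset ℕ, D.Nonempty ∧ (D : Set ℕ) ⊆ S ∧ ∀ s ∈ S,
      (1 / 4 - ε) * (D.card : ℝ) ≤ ((D.filter fun d =>
        {p : ℕ | p.Prime ∧ (s * d * (p - 1) + 1).Prime}.Infinite).card : ℝ) :=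
  quarter pairDensity S hpos hmul h2 ε hε

end Pool.Agent.helper69.MB

end
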